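import Pool.Agent.helper78.HFN.Spec

set_option autoImplicit false

namespace Pool.Agent.HFN

open Polynomial Module

noncomputable section

theorem REA_ex (i j : ℕ) (h : 2 ≤ j) : ex 1 (i * 0 + j * 1) = 0 := by
  unfold ex
  omega

theorem REA (hCUR : CUR_stmt) (hSL2 : SL2_stmt) (hDIR : DIR_stmt) (hCMP : CMP_stmt) : REA_stmt := by
  intro r m a b n S T hS hT hS2 hT2 hrST hD
  obtain ⟨cv, hcv1, hcv2⟩ := hCUR
  obtain ⟨k, hk⟩ : ∃ k, ∑ t, n t + k = r := ⟨r - ∑ t, n t, by have := hD.sum_le; omega⟩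
  obtain ⟨a', ha'⟩ : ∃ a' : Fin (m + k) → ℕ, a' = Fin.append a (fun _ => 1) := ⟨_, rfl⟩
  obtain ⟨b', hb'⟩ : ∃ b' : Fin (m + k) → ℕ, b' = Fin.append b (fun _ => 0) := ⟨_, rfl⟩
  obtain ⟨n', hn'⟩ : ∃ n' : Fin (m + k) → ℕ, n' = Fin.append n (fun _ => 1) := ⟨_, rfl⟩
  have hty : ∀ t, Ty (a' t) (b' t) := by
    intro t
    rw [ha', hb']
    refine Fin.addCases (fun s => ?_) (fun s => ?_) t
    · rw [Fin.append_left, Fin.append_left]
      exact hD.ty s
    · rw [Fin.append_right, Fin.append_right]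
      exact Or.inl ⟨rfl, rfl⟩
  have hc0 : ∀ t : Fin (m + k), (((t : ℕ) : ℂ) + 1) ≠ 0 := by
    intro t
    exact_mod_cast Nat.succ_ne_zero (t : ℕ)
  obtain ⟨Cs, hCs⟩ : ∃ Cs : Fin (m + k) → AA, ∀ t, Cs t = cv (a' t) (b' t) (((t : ℕ) : ℂ) + 1) := ⟨_, fun _ => rfl⟩
  have hirr : ∀ t, Irreducible (Cs t) := fun t => by
    rw [hCs]
    exact (hcv1 _ _ _ (hty t) (hc0 t)).1
  have hdX : ∀ t, dX (Cs t) = a' t := fun t => by
    rw [hCs]
    exact (hcv1 _ _ _ (hty t) (hc0 t)).2.1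
  have hdY : ∀ t, dY (Cs t) = b' t := fun t => by
    rw [hCs]
    exact (hcv1 _ _ _ (hty t) (hc0 t)).2.2
  have hna : ∀ t t', t ≠ t' → ¬ Associated (Cs t) (Cs t') := by
    intro t t' htt
    rw [hCs, hCs]
    refine hcv2 _ _ _ _ _ _ (hty t) (hty t') (hc0 t) (hc0 t') ?_
    intro h
    have h1 : ((t : ℕ) : ℂ) = ((t' : ℕ) : ℂ) := add_right_cancel h
    exact htt (Fin.ext (Nat.cast_injective h1))
  have hsum : ∑ t, n' t = r := by
    rw [Fin.sum_univ_add, hn']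
    simp only [Fin.append_left, Fin.append_right, Finset.sum_const, Finset.card_univ, Fintype.card_fin, smul_eq_mul, mul_one]
    exact hk
  obtain ⟨Z, hZc, hZn, hZE⟩ := hSL2 (m + k) Cs hirr hna n' S T
  rw [hsum] at hZc
  refine ⟨Z, hZc, ?_⟩
  intro i j hi hj
  obtain ⟨L, hL1, hL2, hL3, hL4⟩ := hDIR Z S T hS hT (by rw [hZc]; exact hS2) (by rw [hZc]; exact hT2) (by rw [hZc]; exact hrST)
  have hFL := hCMP Z S T hS hT (by rw [hZc]; exact hrST) L hL1 hL2 hL3 (m + k) Cs n' hirr hna hZn hZE i j hi hj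
  have hFn : Fn Z.card (m + k) (fun t => dX (Cs t)) (fun t => dY (Cs t)) n' i j = Fn r m a b n i j := by
    unfold Fn
    rw [hZc, Fin.sum_univ_add]
    have h1 : ∀ s : Fin m, ex (n' (Fin.castAdd k s)) (i * dY (Cs (Fin.castAdd k s)) + j * dX (Cs (Fin.castAdd k s))) = ex (n s) (i * b s + j * a s) := by
      intro s
      rw [hdX, hdY, ha', hb', hn', Fin.append_left, Fin.append_left, Fin.append_left]
    have h2 : ∀ s : Fin k, ex (n' (Fin.natAdd m s)) (i * dY (Cs (Fin.natAdd m s)) + j * dX (Cs (Fin.natAdd m s))) = 0 := by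
      intro s
      rw [hdX, hdY, ha', hb', hn', Fin.append_right, Fin.append_right, Fin.append_right]
      exact REA_ex i j (by omega)
    rw [Finset.sum_congr rfl fun s _ => h1 s, Finset.sum_congr rfl fun s _ => h2 s, Finset.sum_const_zero, add_zero]
  have h3 := hL4 i j hi hj
  rw [hFL, hFn, hZc] at h3
  have h4 : (0 : ℤ) ≤ (r : ℤ) ^ 2 := sq_nonneg _
  linarith

end

end Pool.Agent.HFN
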