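import Pool.Agent.helper78.HFN.Spec

set_option autoImplicit false

namespace Pool.Agent.HFN

open Polynomial Module

noncomputable section

theorem TYP_aux (E : AA) (hE : Irreducible E) (h : dY E = 0) : dX E = 1 := by
  have h1 : E = C (E.coeff 0) := eq_C_of_natDegree_eq_zero h
  have h2 : Irreducible (E.coeff 0) := by
    refine ⟨fun hu => hE.not_isUnit ?_, fun {a b} hab => ?_⟩
    · rw [h1]
      exact hu.map C
    · have h3 : E = C a * C b := by rw [← C_mul, ← hab, ← h1]
      rcases hE.isUnit_or_isUnit h3 with h4 | h4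
      · exact Or.inl (isUnit_C.1 h4)
      · exact Or.inr (isUnit_C.1 h4)
  rw [h1, dX_C]
  exact natDegree_eq_of_degree_eq_some (IsAlgClosed.degree_eq_one_of_irreducible ℂ h2)

theorem TYP : TYP_stmt := by
  intro E hE
  by_cases hy : dY E = 0
  · exact Or.inl ⟨TYP_aux E hE hy, hy⟩
  by_cases hx : dX E = 0
  · refine Or.inr (Or.inl ⟨hx, ?_⟩)
    have h1 : Irreducible (sw E) := (MulEquiv.irreducible_iff sw).2 hE
    have h2 := TYP_aux (sw E) h1 (by rw [dY_sw]; exact hx)
    rw [dX_sw] at h2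
    exact h2
  · exact Or.inr (Or.inr ⟨Nat.one_le_iff_ne_zero.2 hx, Nat.one_le_iff_ne_zero.2 hy⟩)

end

end Pool.Agent.HFN
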