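import Pool.Agent.helper78.HFN.Spec

set_option autoImplicit false

namespace Pool.Agent.HFN

open Polynomial Module

noncomputable section

theorem PHI_sub (m n : ℕ) (r : ℝ) (hr : 0 < r) : ((m - n : ℕ) : ℝ) / r = max 0 ((m : ℝ) / r - (n : ℝ) / r) := by
  rcases le_total n m with h | h
  · rw [Nat.cast_sub h, sub_div, max_eq_right]
    have h1 : (n : ℝ) ≤ m := by exact_mod_cast h
    have h2 := div_le_div_of_nonneg_right h1 hr.le
    linarith
  · rw [Nat.sub_eq_zero_of_le h, Nat.cast_zero, zero_div, max_eq_left]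
    have h1 : (m : ℝ) ≤ n := by exact_mod_cast h
    have h2 := div_le_div_of_nonneg_right h1 hr.le
    linarith

theorem PHI_lip (s t : ℝ) : |max 0 s - max 0 t| ≤ |s - t| := by
  have h := abs_max_sub_max_le_abs s t 0
  rw [max_comm s 0, max_comm t 0] at h
  exact h

theorem PHI : PHI_stmt := by
  refine ⟨?_, ?_, ?_, ?_⟩
  · intro a b ν x y
    exact add_nonneg (le_max_left _ _) (le_max_left _ _)
  · intro a b ν x y h0 h
    unfold phi
    rw [max_eq_left (by linarith), max_eq_left (by linarith), add_zero]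
  · intro a b n r i j hr
    have hr' : (0 : ℝ) < r := by exact_mod_cast hr
    unfold ex phi
    rw [Nat.cast_add, add_div, PHI_sub _ _ _ hr', PHI_sub _ _ _ hr']
    have h1 : ((2 * n : ℕ) : ℝ) / r = 2 * ((n : ℝ) / r) := by push_cast; ring
    have h2 : ((i * b + j * a : ℕ) : ℝ) / r = (i : ℝ) / r * b + (j : ℝ) / r * a := by push_cast; ring
    rw [h1, h2]
  · intro a b ν ν' x x' y y'
    unfold phi
    have hb : (0 : ℝ) ≤ b := Nat.cast_nonneg b
    have ha : (0 : ℝ) ≤ a := Nat.cast_nonneg a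
    have e1 := PHI_lip (2 * ν - (x * b + y * a)) (2 * ν' - (x' * b + y' * a))
    have e2 := PHI_lip (ν - (x * b + y * a)) (ν' - (x' * b + y' * a))
    have e3 : |(2 * ν - (x * b + y * a)) - (2 * ν' - (x' * b + y' * a))| ≤ 2 * |ν - ν'| + b * |x - x'| + a * |y - y'| := by
      have h1 : (2 * ν - (x * b + y * a)) - (2 * ν' - (x' * b + y' * a)) = 2 * (ν - ν') - (b * (x - x') + a * (y - y')) := by ring
      rw [h1]
      have h2 := abs_sub (2 * (ν - ν')) (b * (x - x') + a * (y - y'))
      have h3 := abs_add_le (b * (x - x')) (a * (y - y'))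
      rw [abs_mul, abs_mul, abs_of_nonneg hb, abs_of_nonneg ha] at h3
      rw [abs_mul, abs_of_nonneg (by norm_num : (0 : ℝ) ≤ 2)] at h2
      linarith
    have e4 : |(ν - (x * b + y * a)) - (ν' - (x' * b + y' * a))| ≤ |ν - ν'| + b * |x - x'| + a * |y - y'| := by
      have h1 : (ν - (x * b + y * a)) - (ν' - (x' * b + y' * a)) = (ν - ν') - (b * (x - x') + a * (y - y')) := by ring
      rw [h1]
      have h2 := abs_sub (ν - ν') (b * (x - x') + a * (y - y'))
      have h3 := abs_add_le (b * (x - x')) (a * (y - y'))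
      rw [abs_mul, abs_mul, abs_of_nonneg hb, abs_of_nonneg ha] at h3
      linarith
    have e5 : max 0 (2 * ν - (x * b + y * a)) + max 0 (ν - (x * b + y * a)) - (max 0 (2 * ν' - (x' * b + y' * a)) + max 0 (ν' - (x' * b + y' * a)))
      = (max 0 (2 * ν - (x * b + y * a)) - max 0 (2 * ν' - (x' * b + y' * a))) + (max 0 (ν - (x * b + y * a)) - max 0 (ν' - (x' * b + y' * a))) := by ring
    rw [e5]
    have e6 := abs_add_le (max 0 (2 * ν - (x * b + y * a)) - max 0 (2 * ν' - (x' * b + y' * a))) (max 0 (ν - (x * b + y * a)) - max 0 (ν' - (x' * b + y' * a)))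
    linarith

end

end Pool.Agent.HFN
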